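import Pool.Agent.R902.Sym2
import Pool.Agent.R902.QuadL
import Pool.Agent.R902.PI

/-!
`∑_{k<p} C(p-1,k) (P_k/8^k) C(2k,k)^2 = 0` modulo `p^2` for primes `p = 7 mod 8`, where `P_k` are
the Pell numbers.
-/

set_option linter.unusedSectionVars false

namespace Pool.Agent.Results.MP_025f5d_nt.PellBinomialTransform

open Finset Pool.Agent.R902 Pool.Agent.R902.Sym2 Pool.Agent.R902.QuadL

/-- Pell numbers -/
def P : ℕ → ℤ
  | 0 => 0
  | 1 => 1
  | n + 2 => 2 * P (n + 1) + P n

/-- `T(p) = ∑_{k=0}^{p-1} C(p-1,k) (P_k / 8^k) C(2k,k)^2` -/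
def T (p : ℕ) : ℚ :=
  ∑ k ∈ range p, ((p - 1).choose k : ℚ) * ((P k : ℚ) / 8 ^ k) * ((2 * k).choose k : ℚ) ^ 2

/-- `a = b` modulo `p^2` in `Z_(p)`: `a - b = p^2 c` with the denominator of `c` prime to `p` -/
def Cong (p : ℕ) (a b : ℚ) : Prop := ∃ c : ℚ, ¬ p ∣ c.den ∧ a - b = (p : ℚ) ^ 2 * c

section

variable (p : ℕ) [hp : Fact p.Prime]

theorem exists_root (h : p % 8 = 7) : ∃ r : ZMod (p ^ 2), r ^ 2 = 2 := by
  have h2 : p ≠ 2 := by omega
  obtain ⟨s, hs⟩ := (ZMod.exists_sq_eq_two_iff h2).2 (Or.inr h)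
  have hcast := fun x => pow_mul_eq_zero_one p 1 x
  set S : ZMod (p ^ 2) := ((s.val : ℕ) : ZMod (p ^ 2)) with hS
  have hd : p ∣ p ^ 2 := dvd_pow_self p two_ne_zero
  have hS1 : ZMod.castHom hd (ZMod p) S = s := by
    rw [hS, map_natCast]
    exact ZMod.natCast_zmod_val s
  have h20 : (2 : ZMod p) ≠ 0 := by
    have : ((2 : ℕ) : ZMod p) ≠ 0 := by
      rw [Ne, ZMod.natCast_eq_zero_iff]
      intro h
      have h1 := (Nat.dvd_prime Nat.prime_two).1 h
      have := hp.1.one_lt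
      omega
    exact_mod_cast this
  have hs0 : s ≠ 0 := by
    rintro rfl
    exact h20 (by simpa using hs)
  have hpos : 0 < s.val := Nat.pos_of_ne_zero (by rwa [Ne, ZMod.val_eq_zero])
  have hu : IsUnit (2 * S) := by
    have h1 := isUnit_natCast p 2 2 (by norm_num) (by have := hp.1.two_le; omega)
    have h3 := isUnit_natCast p 2 s.val hpos (ZMod.val_lt s)
    have := h1.mul h3
    rw [← hS, Nat.cast_ofNat] at this
    exact this
  obtain ⟨u, hu⟩ := hu.exists_right_inv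
  -- (2 - S^2)^2 = 0
  have hk : (2 - S ^ 2) ^ 2 = 0 := by
    have hz : ZMod.castHom hd (ZMod p) (2 - S ^ 2) = 0 := by
      rw [map_sub, map_pow, hS1, map_ofNat, hs]
      ring
    have hv : NeZero (p ^ 2) := ⟨pow_ne_zero _ hp.1.ne_zero⟩
    have e1 : (((2 - S ^ 2).val : ℕ) : ZMod (p ^ 2)) = 2 - S ^ 2 := ZMod.natCast_zmod_val _
    have e2 : (((2 - S ^ 2).val : ℕ) : ZMod p) = 0 := by
      rw [← e1, map_natCast] at hz
      exact hz
    rw [ZMod.natCast_eq_zero_iff] at e2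
    obtain ⟨c, hc⟩ := e2
    rw [← e1, hc]
    push_cast
    rw [mul_pow, p_sq p, zero_mul]
  refine ⟨S + (2 - S ^ 2) * u, ?_⟩
  linear_combination (2 - S ^ 2) * hu + u ^ 2 * hk

theorem mul_eq_zero_of_castHom (x y : ZMod (p ^ 2))
    (hx : ZMod.castHom (dvd_pow_self p two_ne_zero) (ZMod p) x = 0)
    (hy : ZMod.castHom (dvd_pow_self p two_ne_zero) (ZMod p) y = 0) : x * y = 0 := by
  have hv : NeZero (p ^ 2) := ⟨pow_ne_zero _ hp.1.ne_zero⟩
  have key : ∀ z : ZMod (p ^ 2), ZMod.castHom (dvd_pow_self p two_ne_zero) (ZMod p) z = 0 →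
      ∃ c : ZMod (p ^ 2), z = (p : ZMod (p ^ 2)) * c := by
    intro z hz
    have e1 : ((z.val : ℕ) : ZMod (p ^ 2)) = z := ZMod.natCast_zmod_val _
    have e2 : ((z.val : ℕ) : ZMod p) = 0 := by
      rw [← e1, map_natCast] at hz
      exact hz
    rw [ZMod.natCast_eq_zero_iff] at e2
    obtain ⟨c, hc⟩ := e2
    refine ⟨c, ?_⟩
    rw [← e1, hc]
    push_cast
    rfl
  obtain ⟨c, hc⟩ := key x hx
  obtain ⟨d, hd⟩ := key y hy
  rw [hc, hd]
  linear_combination c * d * p_sq p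

theorem choose_pred (k : ℕ) (hkp : k < p) : ((p - 1).choose k : ZMod p) = (-1) ^ k := by
  induction k with
  | zero => simp
  | succ k ih =>
    have ih := ih (by omega)
    have hu : ((k + 1 : ℕ) : ZMod p) ≠ 0 := by
      rw [Ne, ZMod.natCast_eq_zero_iff]
      intro h
      have := Nat.le_of_dvd (by omega) h
      omega
    apply mul_left_cancel₀ hu
    have a3 := congrArg (fun x : ℕ => (x : ZMod p)) (Nat.choose_succ_right_eq (p - 1) k)
    simp only [Nat.cast_mul] at a3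
    have hp1 : ((p - 1 : ℕ) : ZMod p) = -1 := by
      rw [Nat.cast_sub hp.1.one_le, ZMod.natCast_self]
      simp
    rw [Nat.cast_sub (by omega), ih, hp1] at a3
    push_cast at a3 ⊢
    rw [pow_succ]
    linear_combination a3

theorem castHom_G (n : ℕ) (hn : p = 2 * n + 1) (y : ZMod (p ^ 2)) :
    ZMod.castHom (dvd_pow_self p two_ne_zero) (ZMod p) (G p n y)
      = A p n (ZMod.castHom (dvd_pow_self p two_ne_zero) (ZMod p) y) := by
  rw [G, A, map_sum]
  refine Finset.sum_congr rfl fun k hk => ?_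
  have hk : k ≤ n := by
    have := Finset.mem_range.1 hk
    omega
  rw [map_mul, map_mul, map_pow, map_natCast, map_intCast, w]
  have h1 := choose_add_mod p n hn k hk
  have h2 : ((2 * n).choose k : ZMod p) = (-1) ^ k := by
    rw [show 2 * n = p - 1 by omega]
    exact choose_pred p k (by omega)
  push_cast
  rw [h2]
  linear_combination ((n.choose k : ZMod p) *
    (ZMod.castHom (dvd_pow_self p two_ne_zero) (ZMod p)) y ^ k) * h1

theorem pell_root (r : ZMod (p ^ 2)) (hr : r ^ 2 = 2) (k : ℕ) :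
    2 * r * ((P k : ℤ) : ZMod (p ^ 2)) = (1 + r) ^ k - (1 - r) ^ k := by
  induction k using Nat.strong_induction_on with
  | _ k ih =>
    rcases k with _ | _ | k
    · simp [P]
    · simp only [P, zero_add, pow_one]
      push_cast
      ring
    · have h1 := ih (k + 1) (by omega)
      have h0 := ih k (by omega)
      rw [P]
      push_cast
      linear_combination 2 * h1 + h0 - ((1 + r) ^ k - (1 - r) ^ k) * hr

/-- the sum vanishes in `Z/p^2` -/
theorem main (h : p % 8 = 7) (e : ZMod (p ^ 2)) (he : 8 * e = 1) :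
    ∑ k ∈ range p, ((p - 1).choose k : ZMod (p ^ 2)) * (((P k : ℤ) : ZMod (p ^ 2)) * e ^ k) *
      (((2 * k).choose k : ℕ) : ZMod (p ^ 2)) ^ 2 = 0 := by
  obtain ⟨r, hr⟩ := exists_root p h
  obtain ⟨n, hn⟩ : ∃ n, p = 2 * n + 1 := ⟨p / 2, by omega⟩
  have hodd : Odd n := by
    rw [Nat.odd_iff]
    omega
  have h2u : IsUnit (2 : ZMod (p ^ 2)) := by
    have := isUnit_natCast p 2 2 (by norm_num) (by have := hp.1.two_le; omega)
    exact_mod_cast this
  have hru : IsUnit r := by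
    rw [← isUnit_pow_iff (n := 2) two_ne_zero, hr]
    exact h2u
  apply (h2u.mul hru).mul_left_cancel
  rw [mul_zero]
  have s1 := sum_eq_G p n hn ((1 + r) * e)
  have s2 := sum_eq_G p n hn ((1 - r) * e)
  have h1 : 2 * r * ∑ k ∈ range p, ((p - 1).choose k : ZMod (p ^ 2)) *
      (((P k : ℤ) : ZMod (p ^ 2)) * e ^ k) * (((2 * k).choose k : ℕ) : ZMod (p ^ 2)) ^ 2
      = G p n (-16 * ((1 + r) * e)) - G p n (-16 * ((1 - r) * e)) := by
    rw [← s1, ← s2, ← Finset.sum_sub_distrib, Finset.mul_sum]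
    refine Finset.sum_congr rfl fun k _ => ?_
    rw [mul_pow, mul_pow]
    linear_combination (((p - 1).choose k : ZMod (p ^ 2)) * e ^ k *
      (((2 * k).choose k : ℕ) : ZMod (p ^ 2)) ^ 2) * pell_root p r hr k
  rw [h1, show -16 * ((1 + r) * e) = -2 * (1 + r) by linear_combination (-2 * (1 + r)) * he,
    show -16 * ((1 - r) * e) = -2 * (1 - r) by linear_combination (-2 * (1 - r)) * he]
  have h2 := G_symm p n hn (-2 * (1 + r)) (-2 * (1 - r)) (by linear_combination (-4) * hr)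
  rw [show 1 - -2 * (1 + r) = (1 + r) ^ 2 by linear_combination -hr, ← pow_mul,
    show 2 * n = p - 1 by omega] at h2
  rw [← h2, show (1 + r) ^ (p - 1) * G p n (-2 * (1 - r)) - G p n (-2 * (1 - r))
    = ((1 + r) ^ (p - 1) - 1) * G p n (-2 * (1 - r)) by ring]
  set φ := ZMod.castHom (dvd_pow_self p two_ne_zero) (ZMod p) with hφ
  have hr1 : φ r ^ 2 = 2 := by rw [← map_pow, hr, map_ofNat]
  apply mul_eq_zero_of_castHom
  · rw [map_sub, map_pow, map_add, map_one]
    have : (1 + φ r) ≠ 0 := by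
      intro h0
      have h3 : (1 + φ r) * (φ r - 1) = 1 := by linear_combination hr1
      rw [h0, zero_mul] at h3
      exact zero_ne_one h3
    rw [ZMod.pow_card_sub_one_eq_one this, sub_self]
  · rw [castHom_G p n hn, ← hφ, map_mul, map_neg, map_sub, map_one, map_ofNat,
      show -2 * (1 - φ r) = 2 * (φ r - 1) by ring]
    exact A_zero p n hn hodd _ (by linear_combination hr1)

end

/-- the Pell number binomial transform congruence -/
theorem result (p : ℕ) (hp : p.Prime) (h : p % 8 = 7) : Cong p (T p) 0 := by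
  have : Fact p.Prime := ⟨hp⟩
  have hp0 : (p : ℚ) ≠ 0 := by exact_mod_cast hp.ne_zero
  have hp2 : p ≠ 2 := by omega
  have h8u : IsUnit (8 : ZMod (p ^ 2)) := by
    have h1 := isUnit_natCast p 2 2 (by norm_num) (by have := hp.two_le; omega)
    have h3 := h1.pow 3
    have : (((2 : ℕ) : ZMod (p ^ 2))) ^ 3 = 8 := by norm_num
    rwa [this] at h3
  obtain ⟨e, he⟩ := h8u.exists_right_inv
  have hm := main p h e he
  -- the integer 8^(p-1) T(p)
  set Z : ℤ := ∑ k ∈ range p, ((p - 1).choose k : ℤ) * (P k * 8 ^ (p - 1 - k)) *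
    ((2 * k).choose k : ℤ) ^ 2 with hZ
  have hZ0 : ((Z : ℤ) : ZMod (p ^ 2)) = 0 := by
    have h1 : ((Z : ℤ) : ZMod (p ^ 2)) = 8 ^ (p - 1) * ∑ k ∈ range p,
        ((p - 1).choose k : ZMod (p ^ 2)) * (((P k : ℤ) : ZMod (p ^ 2)) * e ^ k) *
        (((2 * k).choose k : ℕ) : ZMod (p ^ 2)) ^ 2 := by
      rw [hZ, Int.cast_sum, Finset.mul_sum]
      refine Finset.sum_congr rfl fun k hk => ?_
      have hk := Finset.mem_range.1 hk
      have h2 : (8 : ZMod (p ^ 2)) ^ (p - 1) * e ^ k = 8 ^ (p - 1 - k) := by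
        rw [show p - 1 = p - 1 - k + k by omega, pow_add, mul_assoc, ← mul_pow, he, one_pow,
          mul_one]
        congr 1
        omega
      push_cast
      linear_combination (-(((p - 1).choose k : ZMod (p ^ 2)) * ((P k : ℤ) : ZMod (p ^ 2)) *
        (((2 * k).choose k : ℕ) : ZMod (p ^ 2)) ^ 2)) * h2
    rw [h1, hm, mul_zero]
  rw [ZMod.intCast_zmod_eq_zero_iff_dvd] at hZ0
  obtain ⟨c, hc⟩ := hZ0
  have hT : T p * 8 ^ (p - 1) = (Z : ℚ) := by
    rw [T, Finset.sum_mul, hZ, Int.cast_sum]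
    refine Finset.sum_congr rfl fun k hk => ?_
    have hk := Finset.mem_range.1 hk
    have h2 : (8 : ℚ) ^ (p - 1) = 8 ^ (p - 1 - k) * 8 ^ k := by
      rw [← pow_add]
      congr 1
      omega
    have h3 : (8 : ℚ) ^ k ≠ 0 := by positivity
    rw [h2]
    push_cast
    field_simp
  have hD : Dv p 2 (T p - 0) := by
    refine ⟨8 ^ (p - 1), ?_, c, ?_⟩
    · intro h4
      have h5 : p ∣ 2 ^ 3 := hp.dvd_of_dvd_pow h4
      have h6 := hp.dvd_of_dvd_pow h5
      exact hp2 ((Nat.prime_dvd_prime_iff_eq hp Nat.prime_two).1 h6)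
    · rw [sub_zero]
      push_cast
      rw [hT, hc]
      push_cast
      ring
  exact hD.exists_den

end Pool.Agent.Results.MP_025f5d_nt.PellBinomialTransform
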